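import Pool.Agent.helper95.PY2.Spec

/-! Row RHO. -/

set_option autoImplicit false

open Finset

namespace Pool.Agent.PY2

theorem RHO_card {p : ℕ} (B : Finset (ZMod p)) (L j h : ℕ) [Fact p.Prime] :
    ((pr B L j).filter fun z => z.2.val = z.1.val + h).card ≤ (cl B L j).card := by
  refine Finset.card_le_card_of_injOn (fun z => z.1) ?_ ?_
  · intro z hz
    have h1 := (Finset.mem_filter.1 (Finset.mem_coe.1 hz)).1
    have h2 := (Finset.mem_filter.1 h1).1
    exact Finset.mem_coe.2 (Finset.mem_product.1 h2).1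
  · intro z hz z' hz' he
    have h1 := (Finset.mem_filter.1 (Finset.mem_coe.1 hz)).2
    have h2 := (Finset.mem_filter.1 (Finset.mem_coe.1 hz')).2
    have he' : z.1 = z'.1 := he
    refine Prod.ext he' (ZMod.val_injective p ?_)
    rw [h1, h2, he']

theorem RHO_fib {p : ℕ} (B : Finset (ZMod p)) (L j : ℕ) :
    ∑ h ∈ Icc 1 L, ((pr B L j).filter fun z => z.2.val = z.1.val + h).card ≤
      (pr B L j).card := by
  simp only [Finset.card_filter]
  rw [Finset.sum_comm, Finset.card_eq_sum_ones]
  refine Finset.sum_le_sum fun z _ => ?_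
  rw [← Finset.card_filter]
  refine Finset.card_le_one.2 fun a ha b hb => ?_
  have h1 := (Finset.mem_filter.1 ha).2
  have h2 := (Finset.mem_filter.1 hb).2
  omega

theorem RHO_pr {p : ℕ} (B : Finset (ZMod p)) (L j : ℕ) :
    (pr B L j).card ≤ (cl B L j).card * (cl B L j).card := by
  refine (Finset.card_filter_le _ _).trans ?_
  rw [Finset.card_product]

theorem RHO_cells {p : ℕ} (B : Finset (ZMod p)) (L n : ℕ) :
    ∑ j ∈ range n, (cl B L j).card ≤ B.card := by
  unfold cl
  simp only [Finset.card_filter]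
  rw [Finset.sum_comm, Finset.card_eq_sum_ones]
  refine Finset.sum_le_sum fun b _ => ?_
  rw [Finset.sum_ite_eq]
  split_ifs <;> simp

theorem RHO : RHO_stmt := by
  intro p _ L B hL
  refine ⟨fun j h => ⟨?_, ?_⟩, ?_⟩
  · unfold rho; positivity
  · unfold rho
    have h1 := RHO_card B L j h
    rcases Nat.eq_zero_or_pos (cl B L j).card with h0 | h0
    · rw [h0]; simp
    · have h2 : (0:ℝ) < ((cl B L j).card : ℝ) := by exact_mod_cast h0
      rw [inv_mul_le_iff₀ h2, mul_one]
      exact_mod_cast h1
  · rw [Finset.sum_comm]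
    have h3 : ∀ j ∈ range (p / L + 1), ∑ h ∈ Icc 1 L, rho B L j h ≤ ((cl B L j).card : ℝ) := by
      intro j _
      unfold rho
      rw [← Finset.mul_sum]
      have h4 : (∑ h ∈ Icc 1 L,
          (((pr B L j).filter fun z => z.2.val = z.1.val + h).card : ℝ)) ≤
          ((cl B L j).card : ℝ) * ((cl B L j).card : ℝ) := by
        exact_mod_cast (RHO_fib B L j).trans (RHO_pr B L j)
      rcases Nat.eq_zero_or_pos (cl B L j).card with h0 | h0
      · rw [h0]; simp
      · have h2 : (0:ℝ) < ((cl B L j).card : ℝ) := by exact_mod_cast h0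
        rw [inv_mul_le_iff₀ h2]
        exact h4
    refine (Finset.sum_le_sum h3).trans ?_
    exact_mod_cast RHO_cells B L (p / L + 1)

end Pool.Agent.PY2
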